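import Mathlib
import Pool.Agent.Q162.Phylo.Member
import Pool.Agent.Q162.Phylo.Exist

set_option autoImplicit false

/-!
# Several trees always have nontrivial common partitions with `n - n/2^t` classes

Semilabeled binary trees (`SBTree`), the sets of partitions and `sMin t n k = s^{(t)}_{n,k}` are
defined in `Pool.Agent.Q162.Phylo.Defs`.
-/

namespace Pool.Agent.Results.MP_8ae77a_co.NoFixedT

open Q162.Phylo Filter

lemma lt_sMin {t n k m : ℕ} (hn : 2 ≤ n) (h : ∀ T : Fin t → SBTree n, m < numCommon T k) :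
    m < sMin t n k := by
  obtain ⟨T₀⟩ := exists_tree n hn
  have hne : {m | ∃ T : Fin t → SBTree n, m = numCommon T k}.Nonempty := ⟨_, fun _ => T₀, rfl⟩
  obtain ⟨T, hT⟩ := Nat.sInf_mem hne
  change m < sInf _
  rw [hT]
  exact h T

/-- **Disproof.** For every `t ≥ 2` and every `f : ℕ → ℕ` with `f(n) = o(n)`, for all sufficiently
large `n` there is `k` with `1 ≤ k < n - f(n)` and `s^{(t)}_{n,k} > C(n, k-1)`. -/
theorem result : ∀ t : ℕ, 2 ≤ t → ∀ f : ℕ → ℕ,
    (fun n => (f n : ℝ)) =o[atTop] (fun n => (n : ℝ)) →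
    ∀ᶠ n in atTop, ∃ k, 1 ≤ k ∧ k < n - f n ∧ n.choose (k - 1) < sMin t n k := by
  intro t ht f hf
  have hc : (0 : ℝ) < 1 / 2 ^ (t + 1) := by positivity
  have h1 := hf.bound hc
  filter_upwards [h1, eventually_ge_atTop (2 * 3 ^ t)] with n hfn hn
  have h3 : 1 ≤ 3 ^ t := Nat.one_le_pow _ _ (by norm_num)
  have h2 : 1 ≤ 2 ^ t := Nat.one_le_pow _ _ (by norm_num)
  have h23 : 2 ^ t ≤ 3 ^ t := Nat.pow_le_pow_left (by norm_num) t
  rw [Real.norm_of_nonneg (Nat.cast_nonneg _), Real.norm_of_nonneg (Nat.cast_nonneg _)] at hfn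
  have h4 : f n * 2 ^ (t + 1) ≤ n := by
    have h5 : (f n : ℝ) * 2 ^ (t + 1) ≤ (n : ℝ) := by
      have h6 : (0 : ℝ) < 2 ^ (t + 1) := by positivity
      calc (f n : ℝ) * 2 ^ (t + 1) ≤ (1 / 2 ^ (t + 1) * (n : ℝ)) * 2 ^ (t + 1) :=
            mul_le_mul_of_nonneg_right hfn h6.le
        _ = (n : ℝ) := by field_simp
    exact_mod_cast h5
  have h7 : f n + 1 ≤ n / 2 ^ t := by
    rw [Nat.le_div_iff_mul_le (by omega)]
    rw [pow_succ] at h4
    nlinarith
  have h8 : n / 2 ^ t < n := by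
    apply Nat.div_lt_self (by omega)
    calc 1 < 2 := by norm_num
      _ = 2 ^ 1 := by norm_num
      _ ≤ 2 ^ t := Nat.pow_le_pow_right (by norm_num) (by omega)
  refine ⟨n - n / 2 ^ t, by omega, by omega, ?_⟩
  exact lt_sMin (by omega) (fun T => main (by omega) hn T)

end Pool.Agent.Results.MP_8ae77a_co.NoFixedT
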